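import Pool.Agent.helper54.UG.Spec2

set_option autoImplicit false

namespace Pool.Agent.UG

open Matrix Pool.Agent.H48SL

/-- The orbit map `a ↦ f a *ᵥ w`. -/
def KS_A {n : ℕ} {K : Type} [Field K] [Algebra ℚ K] (f : K →ₐ[ℚ] MQ n) (w : Fin n → ℚ) :
    K →ₗ[ℚ] (Fin n → ℚ) where
  toFun a := f a *ᵥ w
  map_add' a b := by rw [map_add, add_mulVec]
  map_smul' c a := by rw [map_smul, smul_mulVec, RingHom.id_apply]

theorem KS_A_apply {n : ℕ} {K : Type} [Field K] [Algebra ℚ K] (f : K →ₐ[ℚ] MQ n)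
    (w : Fin n → ℚ) (a : K) : KS_A f w a = f a *ᵥ w := rfl

theorem KS_zero {n : ℕ} {K : Type} [Field K] [Algebra ℚ K] (f : K →ₐ[ℚ] MQ n)
    {w : Fin n → ℚ} (hw : w ≠ 0) {a : K} (h : f a *ᵥ w = 0) : a = 0 := by
  by_contra ha
  apply hw
  have h1 : f a⁻¹ *ᵥ (f a *ᵥ w) = 0 := by rw [h, mulVec_zero]
  rw [mulVec_mulVec, ← map_mul, inv_mul_cancel₀ ha, map_one, one_mulVec] at h1
  exact h1

/-- Theorem N for the symplectic group. -/
theorem KS (hKFS : KFS_stmt) (hKSS : KSS_stmt) (hKB : KB_stmt) : KS_stmt := by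
  intro n K _ _ _ f ω H hn hK hS hZ
  have h4 : 2 * Module.finrank ℚ K ≤ n := by
    have hv : (fun _ => 1 : Fin n → ℚ) ≠ 0 := by
      intro h
      have h1 := congrFun h ⟨0, hn⟩
      simp at h1
    obtain ⟨s, hs⟩ := hS.nondeg _ hv
    set v : Fin n → ℚ := fun _ => 1 with hvd
    have hT : Function.Injective (LinearMap.coprod (KS_A f v) (KS_A f s)) := by
      rw [← LinearMap.ker_eq_bot, LinearMap.ker_eq_bot']
      rintro ⟨a, b⟩ hab
      rw [LinearMap.coprod_apply, KS_A_apply, KS_A_apply] at hab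
      have h1 : ω v (f a *ᵥ v + f b *ᵥ s) = 0 := by rw [hab, map_zero]
      rw [map_add, hS.lin, hS.lin, hS.alt, mul_zero, zero_add] at h1
      have hb : b = 0 := (mul_eq_zero.1 h1).resolve_right hs
      rw [hb, map_zero, zero_mulVec, add_zero] at hab
      have ha : a = 0 := KS_zero f hv hab
      rw [ha, hb]
      rfl
    have h2 := LinearMap.finrank_le_finrank_of_injective hT
    rw [Module.finrank_prod, Module.finrank_fin_fun] at h2
    omega
  obtain ⟨m, rfl⟩ : ∃ m, n = m + 1 := ⟨n - 1, by omega⟩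
  obtain ⟨X, hX⟩ := hKFS m K f ω H hK hS
  obtain ⟨b, hb⟩ := hKSS m K f ω H hK hS
  exact hKB m (by omega) H X b hZ hX hb

end Pool.Agent.UG
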