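import Pool.Agent.helper54.UG.Spec

set_option autoImplicit false

namespace Pool.Agent.UG

open Matrix Pool.Agent.H48SL
open scoped commutatorElement

theorem UGN_pow {n : ℕ} (fil : ℕ → Submodule ℚ (MQ n))
    (hm : ∀ i j, ∀ X ∈ fil i, ∀ Y ∈ fil j, X * Y ∈ fil (i + j)) {X : MQ n} (hX : X ∈ fil 1)
    (i : ℕ) : X ^ (i + 1) ∈ fil (i + 1) := by
  induction i with
  | zero => rw [zero_add, pow_one]; exact hX
  | succ i ih => rw [pow_succ]; exact hm _ _ _ ih _ hX

theorem UGN_nil {n : ℕ} (fil : ℕ → Submodule ℚ (MQ n))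
    (hm : ∀ i j, ∀ X ∈ fil i, ∀ Y ∈ fil j, X * Y ∈ fil (i + j)) (ha : ∀ i, fil (i + 1) ≤ fil i)
    {N : ℕ} (hN : fil N = ⊥) {X : MQ n} (hX : X ∈ fil 1) : X ^ (N + 1) = 0 := by
  have h1 := ha N (UGN_pow fil hm hX N)
  rw [hN] at h1
  exact (Submodule.mem_bot ℚ).1 h1

theorem UGN_inv {n : ℕ} (fil : ℕ → Submodule ℚ (MQ n))
    (hm : ∀ i j, ∀ X ∈ fil i, ∀ Y ∈ fil j, X * Y ∈ fil (i + j)) (ha : ∀ i, fil (i + 1) ≤ fil i)
    {N : ℕ} (hN : fil N = ⊥) (u : (MQ n)ˣ) (hu : (u : MQ n) - 1 ∈ fil 1) :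
    ((u⁻¹ : (MQ n)ˣ) : MQ n) - 1 ∈ fil 1 := by
  have hmon : Antitone fil := antitone_nat_of_succ_le ha
  set X : MQ n := 1 - (u : MQ n) with hXd
  have hX : X ∈ fil 1 := by
    have := (fil 1).neg_mem hu
    rwa [neg_sub] at this
  set Y : MQ n := ((u⁻¹ : (MQ n)ˣ) : MQ n) - 1 with hYd
  have hY : Y = X + X * Y := by
    have h1 : (u : MQ n) * ((u⁻¹ : (MQ n)ˣ) : MQ n) = 1 := Units.mul_inv u
    rw [hXd, hYd, sub_mul, mul_sub, mul_sub, h1]
    simp only [one_mul, mul_one]
    abel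
  have key : ∀ m : ℕ, ∃ F ∈ fil 1, Y = F + X ^ m * Y := by
    intro m
    induction m with
    | zero => exact ⟨0, (fil 1).zero_mem, by rw [pow_zero, one_mul, zero_add]⟩
    | succ m ih =>
      obtain ⟨F, hF, hFY⟩ := ih
      refine ⟨F + X ^ (m + 1), (fil 1).add_mem hF
        (hmon (Nat.le_add_left 1 m) (UGN_pow fil hm hX m)), ?_⟩
      calc Y = F + X ^ m * Y := hFY
        _ = F + X ^ m * (X + X * Y) := by rw [← hY]
        _ = F + X ^ (m + 1) + X ^ (m + 1) * Y := by
          rw [mul_add, ← mul_assoc, ← pow_succ, add_assoc]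
  obtain ⟨F, hF, hFY⟩ := key (N + 1)
  rw [UGN_nil fil hm ha hN hX, zero_mul, add_zero] at hFY
  rw [hFY]
  exact hF

/-- The unipotent group of a filtration. -/
theorem UGN : UGN_stmt := by
  intro n fil hm ha hb
  obtain ⟨N, hN⟩ := hb
  have hmon : Antitone fil := antitone_nat_of_succ_le ha
  have hinv := UGN_inv fil hm ha hN
  -- the groups `W j`
  let W : ℕ → Subgroup (MQ n)ˣ := fun j =>
    { carrier := {u | (u : MQ n) - 1 ∈ fil (j + 1)}
      one_mem' := by
        show ((1 : (MQ n)ˣ) : MQ n) - 1 ∈ fil (j + 1)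
        rw [Units.val_one, sub_self]
        exact (fil (j + 1)).zero_mem
      mul_mem' := by
        intro a b ha' hb'
        show ((a * b : (MQ n)ˣ) : MQ n) - 1 ∈ fil (j + 1)
        have e : ((a * b : (MQ n)ˣ) : MQ n) - 1 =
            ((a : MQ n) - 1) * ((b : MQ n) - 1) + ((a : MQ n) - 1) + ((b : MQ n) - 1) := by
          rw [Units.val_mul, sub_mul, mul_sub]
          simp only [one_mul, mul_one]
          abel
        rw [e]
        exact (fil (j + 1)).add_mem ((fil (j + 1)).add_mem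
          (hmon (by omega) (hm _ _ _ ha' _ hb')) ha') hb'
      inv_mem' := by
        intro a ha'
        show ((a⁻¹ : (MQ n)ˣ) : MQ n) - 1 ∈ fil (j + 1)
        have h1 : (a : MQ n) - 1 ∈ fil 1 := hmon (by omega) ha'
        have h2 := hinv a h1
        have e : ((a⁻¹ : (MQ n)ˣ) : MQ n) - 1 =
            -(((a : MQ n) - 1) + ((a : MQ n) - 1) * (((a⁻¹ : (MQ n)ˣ) : MQ n) - 1)) := by
          have h3 : (a : MQ n) * ((a⁻¹ : (MQ n)ˣ) : MQ n) = 1 := Units.mul_inv a
          rw [sub_mul, mul_sub, mul_sub, h3]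
          simp only [one_mul, mul_one]
          abel
        rw [e]
        exact (fil (j + 1)).neg_mem ((fil (j + 1)).add_mem ha' (ha (j + 1) (hm _ _ _ ha' _ h2))) }
  have hW : ∀ j (u : (MQ n)ˣ), u ∈ W j ↔ (u : MQ n) - 1 ∈ fil (j + 1) := fun j u => Iff.rfl
  refine ⟨W 0, fun u => hW 0 u, ?_, ?_⟩
  · have hlow : ∀ i, (W 0).lowerCentralSeries i ≤ W i := by
      intro i
      induction i with
      | zero => exact le_of_eq (Subgroup.lowerCentralSeries_zero (S := W 0))
      | succ i ih =>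
        rw [Subgroup.lowerCentralSeries_succ, Subgroup.commutator_le]
        intro p hp q hq
        have hp1 : (p : MQ n) - 1 ∈ fil (i + 1) := ih hp
        have hq1 : (q : MQ n) - 1 ∈ fil 1 := hq
        rw [hW]
        have hp0 : (p : MQ n) - 1 ∈ fil 1 := hmon (by omega) hp1
        have hpi := hinv p hp0
        have hqi := hinv q hq1
        set Z : MQ n := ((p : MQ n) - 1) * ((q : MQ n) - 1) -
          ((q : MQ n) - 1) * ((p : MQ n) - 1) with hZd
        have hZ : Z ∈ fil (i + 1 + 1) := by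
          refine (fil (i + 1 + 1)).sub_mem (hm _ _ _ hp1 _ hq1) ?_
          have h5 := hm _ _ _ hq1 _ hp1
          rwa [add_comm 1 (i + 1)] at h5
        have hright : ∀ (Z' Y : MQ n), Z' ∈ fil (i + 1 + 1) → Y - 1 ∈ fil 1 →
            Z' * Y ∈ fil (i + 1 + 1) := by
          intro Z' Y hZ' hY
          have e : Z' * Y = Z' + Z' * (Y - 1) := by
            rw [mul_sub, mul_one]
            abel
          rw [e]
          exact (fil (i + 1 + 1)).add_mem hZ' (ha _ (hm _ _ _ hZ' _ hY))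
        have e : ((⁅p, q⁆ : (MQ n)ˣ) : MQ n) - 1 =
            Z * ((p⁻¹ : (MQ n)ˣ) : MQ n) * ((q⁻¹ : (MQ n)ˣ) : MQ n) := by
          have h6 : Z = (p : MQ n) * (q : MQ n) - (q : MQ n) * (p : MQ n) := by
            rw [hZd]
            noncomm_ring
          have h7 : (q : MQ n) * (p : MQ n) * ((p⁻¹ : (MQ n)ˣ) : MQ n) *
              ((q⁻¹ : (MQ n)ˣ) : MQ n) = 1 := by
            rw [mul_assoc (q : MQ n), Units.mul_inv, mul_one, Units.mul_inv]
          rw [commutatorElement_def, Units.val_mul, Units.val_mul, Units.val_mul, h6, sub_mul,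
            sub_mul, h7]
        rw [e]
        exact hright _ _ (hright _ _ hZ hpi) hqi
    have hbot : W N = ⊥ := by
      rw [eq_bot_iff]
      intro u hu
      have h1 := ha N ((hW N u).1 hu)
      rw [hN] at h1
      have h2 := (Submodule.mem_bot ℚ).1 h1
      rw [Subgroup.mem_bot]
      apply Units.ext
      rw [Units.val_one]
      exact sub_eq_zero.1 h2
    rw [Subgroup.nilpotent_iff_lowerCentralSeries]
    refine ⟨N, ?_⟩
    have h1 := Subgroup.top_subtype_lowerCentralSeries (W 0) N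
    have h2 : (W 0).lowerCentralSeries N = ⊥ := by
      rw [eq_bot_iff, ← hbot]
      exact hlow N
    rw [h2] at h1
    exact (Subgroup.map_eq_bot_iff_of_injective _ (W 0).subtype_injective).1 h1
  · intro M hM
    have h1 : IsNilpotent (M - 1) := ⟨N + 1, UGN_nil fil hm ha hN hM⟩
    have h2 := h1.isUnit_add_one
    rwa [sub_add_cancel] at h2

end Pool.Agent.UG
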